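import Pool.Agent.H306R2.SM.Defs
import Pool.Agent.Helper242.KK.Gam1

set_option autoImplicit false

namespace Pool.Agent.H942R2.SMT0

open Finset Filter Topology MeasureTheory Complex
open Pool.Agent.H306R2 Pool.Agent.H306R2.SM

noncomputable section

/-- T0 -/
theorem gamma_bound (σ τ : ℝ) (hσ : 0 < σ) (hτ : 1 ≤ |τ|) :
    ‖Complex.Gamma (σ + τ * I)‖ ≤
      3 * Real.Gamma σ * (2 * |τ|) ^ σ * Real.exp (-(Real.pi * |τ| / 2)) := by
  have hτ0 : 0 < |τ| := by linarith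
  have hpi := Real.pi_gt_three
  have hpi4 := Real.pi_le_four
  have hinv : 1 / |τ| ≤ 1 := by
    rw [div_le_one hτ0]; exact hτ
  have hinv0 : 0 < 1 / |τ| := by positivity
  have h := Pool.Agent.Helper242.KK.norm_Gamma_le_of_angle (σ := σ) (v := τ)
    (θ := Real.pi / 2 - 1 / |τ|) hσ (by linarith) (by linarith)
  refine h.trans ?_
  rw [Real.cos_pi_div_two_sub]
  have hG : 0 < Real.Gamma σ := Real.Gamma_pos_of_pos hσ
  have h2 := Real.mul_le_sin hinv0.le (by linarith : 1 / |τ| ≤ Real.pi / 2)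
  have h3 : 1 / (2 * |τ|) ≤ Real.sin (1 / |τ|) := by
    refine le_trans ?_ h2
    have : (1:ℝ) / (2 * |τ|) = 1 / 2 * (1 / |τ|) := by
      field_simp
    rw [this]
    apply mul_le_mul_of_nonneg_right _ hinv0.le
    rw [div_le_div_iff₀ (by norm_num) Real.pi_pos]
    linarith
  have h4 : (1 / (2 * |τ|)) ^ σ ≤ (Real.sin (1 / |τ|)) ^ σ :=
    Real.rpow_le_rpow (by positivity) h3 hσ.le
  have h5 : 0 < (1 / (2 * |τ|)) ^ σ := by positivity
  have h6 : Real.exp (-(Real.pi / 2 - 1 / |τ|) * |τ|) ≤ 3 * Real.exp (-(Real.pi * |τ| / 2)) := by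
    have e1 : -(Real.pi / 2 - 1 / |τ|) * |τ| = 1 + -(Real.pi * |τ| / 2) := by
      field_simp
      ring
    rw [e1, Real.exp_add]
    apply mul_le_mul_of_nonneg_right _ (Real.exp_pos _).le
    linarith [Real.exp_one_lt_d9]
  have h7 : 0 ≤ Real.exp (-(Real.pi / 2 - 1 / |τ|) * |τ|) * Real.Gamma σ := by positivity
  calc Real.exp (-(Real.pi / 2 - 1 / |τ|) * |τ|) * Real.Gamma σ / (Real.sin (1 / |τ|)) ^ σ
      ≤ Real.exp (-(Real.pi / 2 - 1 / |τ|) * |τ|) * Real.Gamma σ / (1 / (2 * |τ|)) ^ σ :=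
        div_le_div_of_nonneg_left h7 h5 h4
    _ = Real.exp (-(Real.pi / 2 - 1 / |τ|) * |τ|) * Real.Gamma σ * (2 * |τ|) ^ σ := by
        have h8 : (1 / (2 * |τ|)) ^ σ = ((2 * |τ|) ^ σ)⁻¹ := by
          rw [one_div, Real.inv_rpow (by positivity)]
        rw [h8, div_inv_eq_mul]
    _ ≤ 3 * Real.exp (-(Real.pi * |τ| / 2)) * Real.Gamma σ * (2 * |τ|) ^ σ := by
        gcongr
    _ = _ := by ring

lemma norm_cos_le (z : ℂ) : ‖Complex.cos z‖ ≤ Real.exp |z.im| := by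
  rw [Complex.cos]
  rw [norm_div]
  have h1 : ‖Complex.exp (z * I)‖ ≤ Real.exp |z.im| := by
    rw [Complex.norm_exp]
    apply Real.exp_le_exp.mpr
    have : (z * I).re = -z.im := by simp
    rw [this]
    exact neg_le_abs _
  have h2 : ‖Complex.exp (-z * I)‖ ≤ Real.exp |z.im| := by
    rw [Complex.norm_exp]
    apply Real.exp_le_exp.mpr
    have : (-z * I).re = z.im := by simp
    rw [this]
    exact le_abs_self _
  have h3 : ‖(2:ℂ)‖ = 2 := by simp
  rw [h3, div_le_iff₀ (by norm_num)]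
  refine (norm_add_le _ _).trans ?_
  linarith

lemma gamma_shift (n : ℕ) (s : ℂ) (hs : 0 ≤ s.im) (hs0 : s.im ≠ 0) :
    ‖Complex.Gamma s‖ * s.im ^ n ≤ ‖Complex.Gamma (s + n)‖ := by
  induction n with
  | zero => simp
  | succ n ih =>
    have hne : s + n ≠ 0 := by
      intro h
      have := congrArg Complex.im h
      simp at this
      exact hs0 this
    have h1 : Complex.Gamma (s + ((n + 1 : ℕ) : ℂ)) = (s + n) * Complex.Gamma (s + n) := by
      rw [← Complex.Gamma_add_one _ hne]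
      congr 1
      push_cast
      ring
    rw [h1, norm_mul, pow_succ]
    have h2 : s.im ≤ ‖s + n‖ := by
      have h3 := Complex.abs_im_le_norm (s + n)
      have h4 : (s + n).im = s.im := by simp
      rw [h4, abs_of_nonneg hs] at h3
      exact h3
    have h5 : 0 ≤ ‖Complex.Gamma s‖ * s.im ^ n := by positivity
    calc ‖Complex.Gamma s‖ * (s.im ^ n * s.im) = s.im * (‖Complex.Gamma s‖ * s.im ^ n) := by ring
      _ ≤ ‖s + n‖ * ‖Complex.Gamma (s + n)‖ := by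
        apply mul_le_mul h2 ih h5 (norm_nonneg _)

lemma norm_Xf (s : ℂ) : ‖Xf s‖ =
    2 * (2 * Real.pi) ^ (-s.re) * ‖Complex.Gamma s‖ * ‖Complex.cos ((Real.pi : ℂ) * s / 2)‖ := by
  unfold Xf
  rw [norm_mul, norm_mul, norm_mul]
  have h1 : ‖(2:ℂ)‖ = 2 := by simp
  have h2 : ‖(2 * (Real.pi : ℂ)) ^ (-s)‖ = (2 * Real.pi) ^ (-s.re) := by
    have h3 : (2 * (Real.pi : ℂ)) = ((2 * Real.pi : ℝ) : ℂ) := by push_cast; ring
    rw [h3, Complex.norm_cpow_eq_rpow_re_of_pos (by positivity)]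
    simp
  rw [h1, h2]

lemma cos_im_bound (s : ℂ) (hs : 0 ≤ s.im) :
    ‖Complex.cos ((Real.pi : ℂ) * s / 2)‖ ≤ Real.exp (Real.pi * s.im / 2) := by
  refine (norm_cos_le _).trans ?_
  have h : ((Real.pi : ℂ) * s / 2).im = Real.pi * s.im / 2 := by
    have : (Real.pi : ℂ) * s / 2 = ((Real.pi / 2 : ℝ) : ℂ) * s := by push_cast; ring
    rw [this, Complex.im_ofReal_mul]
    ring
  rw [h, abs_of_nonneg (by positivity)]

lemma two_pi_rpow (N : ℕ) (s : ℂ) (hs : 1 / 2 - (N : ℝ) ≤ s.re) :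
    (2 * Real.pi) ^ (-s.re) ≤ (2 * Real.pi) ^ N := by
  have hpi := Real.pi_gt_three
  rw [← Real.rpow_natCast]
  apply Real.rpow_le_rpow_of_exponent_le (by linarith)
  linarith

lemma gamma_half (τ : ℝ) : ‖Complex.Gamma ((1 / 2 : ℂ) + τ * I)‖ ^ 2 = Real.pi / Real.cosh (Real.pi * τ) := by
  have h1 := Complex.Gamma_mul_Gamma_one_sub ((1 / 2 : ℂ) + τ * I)
  have h2 : (1 : ℂ) - ((1 / 2 : ℂ) + τ * I) = (starRingEnd ℂ) ((1 / 2 : ℂ) + τ * I) := by
    rw [map_add, map_mul, Complex.conj_I, Complex.conj_ofReal]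
    have : (starRingEnd ℂ) (1 / 2 : ℂ) = 1 / 2 := by
      rw [map_div₀, map_one]
      congr 1
      exact Complex.conj_ofNat 2
    rw [this]
    ring
  rw [h2, Complex.Gamma_conj, Complex.mul_conj, Complex.normSq_eq_norm_sq] at h1
  have h3 : Complex.sin ((Real.pi : ℂ) * ((1 / 2 : ℂ) + τ * I)) = ((Real.cosh (Real.pi * τ) : ℝ) : ℂ) := by
    have : (Real.pi : ℂ) * ((1 / 2 : ℂ) + τ * I) = ((Real.pi * τ : ℝ) : ℂ) * I + Real.pi / 2 := by
      push_cast; ring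
    rw [this, Complex.sin_add_pi_div_two, Complex.cos_mul_I, Complex.ofReal_cosh]
  rw [h3] at h1
  exact_mod_cast h1

lemma gamma_half_le (τ : ℝ) : ‖Complex.Gamma ((1 / 2 : ℂ) + τ * I)‖ ≤
    Real.sqrt (2 * Real.pi) * Real.exp (-(Real.pi * τ / 2)) := by
  have h := gamma_half τ
  have hc : Real.exp (Real.pi * τ) / 2 ≤ Real.cosh (Real.pi * τ) := by
    rw [Real.cosh_eq]
    linarith [Real.exp_pos (-(Real.pi * τ))]
  have h1 : ‖Complex.Gamma ((1 / 2 : ℂ) + τ * I)‖ ^ 2 ≤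
      (Real.sqrt (2 * Real.pi) * Real.exp (-(Real.pi * τ / 2))) ^ 2 := by
    rw [h, mul_pow, Real.sq_sqrt (by positivity), ← Real.exp_nat_mul]
    have e1 : ((2:ℕ) : ℝ) * -(Real.pi * τ / 2) = -(Real.pi * τ) := by push_cast; ring
    rw [e1, Real.exp_neg, div_le_iff₀ (Real.cosh_pos _)]
    have h2 : 2 * Real.pi * (Real.exp (Real.pi * τ))⁻¹ * (Real.exp (Real.pi * τ) / 2) = Real.pi := by
      field_simp
    calc Real.pi = 2 * Real.pi * (Real.exp (Real.pi * τ))⁻¹ * (Real.exp (Real.pi * τ) / 2) := h2.symm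
      _ ≤ _ := by gcongr
  exact le_of_sq_le_sq h1 (by positivity)

/-- T0b -/
theorem Xf_bounds (N : ℕ) : ∃ C : ℝ, ∃ A : ℕ, 0 < C ∧
    (∀ s : ℂ, 1 / 2 - (N : ℝ) ≤ s.re → s.re ≤ 1 / 2 → 1 ≤ s.im → ‖Xf s‖ ≤ C * s.im ^ A) ∧
    (∀ τ : ℝ, 1 ≤ τ → ‖Xf (((1 / 2 - (N : ℝ) : ℝ) : ℂ) + τ * I)‖ ≤ C * τ ^ (-(N : ℝ))) := by
  obtain ⟨M, hM0, hM⟩ : ∃ M : ℝ, 0 < M ∧ ∀ x ∈ Set.Icc (3 / 2 : ℝ) (N + 3 / 2), Real.Gamma x ≤ M := by
    have hcont : ContinuousOn Real.Gamma (Set.Icc (3 / 2 : ℝ) (N + 3 / 2)) := by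
      intro x hx
      apply ContinuousAt.continuousWithinAt
      apply (Real.differentiableAt_Gamma ?_).continuousAt
      intro m
      have : (0:ℝ) ≤ (m:ℝ) := Nat.cast_nonneg m
      have := hx.1
      intro hh
      linarith
    obtain ⟨M, hM⟩ := isCompact_Icc.exists_bound_of_continuousOn hcont
    refine ⟨max M 1, lt_max_of_lt_right one_pos, fun x hx => ?_⟩
    exact (le_abs_self _).trans ((hM x hx).trans (le_max_left _ _))
  have hpi := Real.pi_gt_three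
  refine ⟨max (6 * M * (2 * Real.pi) ^ N * 2 ^ (N + 2)) (2 * (2 * Real.pi) ^ N * Real.sqrt (2 * Real.pi)),
    N + 2, lt_max_of_lt_left (by positivity), ?_, ?_⟩
  · intro s hs1 hs2 hs3
    rw [norm_Xf]
    have hτ : 0 < s.im := by linarith
    have h1 := two_pi_rpow N s hs1
    have h2 := gamma_shift (N + 1) s hτ.le hτ.ne'
    have h3 := cos_im_bound s hτ.le
    have h4 : s + ((N + 1 : ℕ) : ℂ) = ((s.re + (N + 1) : ℝ) : ℂ) + (s.im : ℝ) * I := by
      apply Complex.ext <;> simp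
    rw [h4] at h2
    have hx1 : 3 / 2 ≤ s.re + (N + 1) := by linarith
    have hx2 : s.re + (N + 1) ≤ N + 3 / 2 := by linarith
    have h5 := gamma_bound (s.re + (N + 1)) s.im (by linarith) (by rw [abs_of_pos hτ]; exact hs3)
    rw [abs_of_pos hτ] at h5
    have h6 : ‖Complex.Gamma s‖ ≤ 3 * M * (2 * s.im) ^ (N + 2) * Real.exp (-(Real.pi * s.im / 2)) := by
      have h7 : ‖Complex.Gamma s‖ ≤ ‖Complex.Gamma s‖ * s.im ^ (N + 1) := by
        have : 1 ≤ s.im ^ (N + 1) := one_le_pow₀ hs3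
        nlinarith [norm_nonneg (Complex.Gamma s)]
      refine h7.trans (h2.trans (h5.trans ?_))
      have h8 : (2 * s.im) ^ (s.re + (N + 1)) ≤ (2 * s.im) ^ (N + 2) := by
        rw [← Real.rpow_natCast]
        apply Real.rpow_le_rpow_of_exponent_le (by linarith)
        push_cast
        linarith
      have h9 := hM _ ⟨hx1, hx2⟩
      gcongr
    have h10 : Real.exp (-(Real.pi * s.im / 2)) * Real.exp (Real.pi * s.im / 2) = 1 := by
      rw [← Real.exp_add]; simp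
    calc 2 * (2 * Real.pi) ^ (-s.re) * ‖Complex.Gamma s‖ * ‖Complex.cos ((Real.pi : ℂ) * s / 2)‖
        ≤ 2 * (2 * Real.pi) ^ N * (3 * M * (2 * s.im) ^ (N + 2) * Real.exp (-(Real.pi * s.im / 2))) *
          Real.exp (Real.pi * s.im / 2) := by gcongr
      _ = 6 * M * (2 * Real.pi) ^ N * 2 ^ (N + 2) * s.im ^ (N + 2) *
          (Real.exp (-(Real.pi * s.im / 2)) * Real.exp (Real.pi * s.im / 2)) := by
          rw [mul_pow]; ring
      _ = 6 * M * (2 * Real.pi) ^ N * 2 ^ (N + 2) * s.im ^ (N + 2) := by rw [h10, mul_one]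
      _ ≤ _ := by
        apply mul_le_mul_of_nonneg_right (le_max_left _ _) (by positivity)
  · intro τ hτ
    have hτ0 : 0 < τ := by linarith
    set s : ℂ := ((1 / 2 - (N : ℝ) : ℝ) : ℂ) + τ * I with hs
    have hre : s.re = 1 / 2 - N := by simp [hs]
    have him : s.im = τ := by simp [hs]
    rw [norm_Xf]
    have h1 := two_pi_rpow N s (by rw [hre])
    have h2 := gamma_shift N s (by rw [him]; exact hτ0.le) (by rw [him]; exact hτ0.ne')
    have h3 := cos_im_bound s (by rw [him]; exact hτ0.le)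
    have h4 : s + (N : ℂ) = (1 / 2 : ℂ) + τ * I := by
      rw [hs]; push_cast; ring
    rw [h4, him] at h2
    rw [him] at h3
    have h5 := gamma_half_le τ
    have h6 : ‖Complex.Gamma s‖ ≤ Real.sqrt (2 * Real.pi) * Real.exp (-(Real.pi * τ / 2)) * τ ^ (-(N : ℝ)) := by
      rw [Real.rpow_neg hτ0.le, Real.rpow_natCast, ← div_eq_mul_inv, le_div_iff₀ (by positivity)]
      exact h2.trans h5
    have h10 : Real.exp (-(Real.pi * τ / 2)) * Real.exp (Real.pi * τ / 2) = 1 := by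
      rw [← Real.exp_add]; simp
    calc 2 * (2 * Real.pi) ^ (-s.re) * ‖Complex.Gamma s‖ * ‖Complex.cos ((Real.pi : ℂ) * s / 2)‖
        ≤ 2 * (2 * Real.pi) ^ N * (Real.sqrt (2 * Real.pi) * Real.exp (-(Real.pi * τ / 2)) *
          τ ^ (-(N : ℝ))) * Real.exp (Real.pi * τ / 2) := by gcongr
      _ = 2 * (2 * Real.pi) ^ N * Real.sqrt (2 * Real.pi) * τ ^ (-(N : ℝ)) *
          (Real.exp (-(Real.pi * τ / 2)) * Real.exp (Real.pi * τ / 2)) := by ring
      _ = 2 * (2 * Real.pi) ^ N * Real.sqrt (2 * Real.pi) * τ ^ (-(N : ℝ)) := by rw [h10, mul_one]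
      _ ≤ _ := by
        apply mul_le_mul_of_nonneg_right (le_max_right _ _) (by positivity)

end

end Pool.Agent.H942R2.SMT0
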