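import Pool.Agent.H295R2.MK.Defs

set_option autoImplicit false

/-!
Task R2 of `Pool.Agent.H295R2.MK.Defs`: the mean value of `(b/a)^{it}`, the case `j = 0`.
-/

namespace H942MK.R2

open Finset Filter Topology MeasureTheory Complex
open Pool.Agent.H306R2 H295MK

noncomputable section

lemma mt_zero (a b : ℕ) (ha : 1 ≤ a) (hb : 1 ≤ b) : H295MK.mt 0 a b = if a = b then 1 else 0 := by
  unfold H295MK.mt
  by_cases hab : a = b
  · subst hab
    have hne : (a : ℝ) ≠ 0 := by exact_mod_cast (by omega : a ≠ 0)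
    rw [if_pos dvd_rfl, if_pos rfl, Nat.div_self (by omega), Nat.cast_zero, dv_one,
      div_self hne, Real.sqrt_one, mul_one]
  · rw [if_neg hab]
    split_ifs with hd
    · obtain ⟨c, rfl⟩ := hd
      have hc : c ≠ 1 := by
        rintro rfl
        exact hab (mul_one a).symm
      rw [Nat.mul_div_cancel_left c (by omega), Nat.cast_zero, ← dA_apply, dA_zero,
        ArithmeticFunction.one_apply, if_neg hc, zero_mul]
    · rfl

/-- R2: the case `j = 0` -/
theorem twO (h : TwZ) : TwO := by
  intro B η δ hη hη' hδ hδ'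
  filter_upwards [h 0 B η δ hη hη' hδ hδ'] with T hT
  intro τ h1 h2 a b ha haT hb hbY
  have h3 := hT τ h1 h2 a b ha haT hb hbY
  rw [mt_zero a b ha hb] at h3
  have h4 : (fun t : ℝ => riemannZeta (cl t) ^ 0 * fr a b t) = fun t => fr a b t := by
    funext t
    rw [pow_zero, one_mul]
  rw [h4] at h3
  have h5 : (((if a = b then 1 else 0 : ℝ)) : ℂ) = (if a = b then 1 else 0 : ℂ) := by
    split_ifs <;> simp
  rw [h5] at h3
  exact h3

end

end H942MK.R2
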